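import Pool.Agent.Helper47.CA.Ent
import Pool.Agent.Helper47.T4.Nest

/-!
# Information facts of a corner over nested labels

`Bk D Z1 Z3 L0 M0 M L2 X2 Y2 Lx ρ ε P`: facts about informations of `S` over the partitions `D.Z` (window `c`), `Z1`
(window `c + e`), `D.Z'` (window `c' = c + s e`), `Z3` (window `c' + e`), all in the unit `n` of `S`.
`Bk.fct`: they give the structure `ND.Fct` (errors `P`), so the flat corner `CorH`.
-/

set_option autoImplicit false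

namespace Pool.Agent.Helper47.CA

open Finset Filter Topology Pool.Agent.Helper69.RK Pool.Agent.Helper31.EC Pool.Agent.Helper31.EC.Sp
open Pool.Agent.Helper60.CS Pool.Agent.Helper98.FR Pool.Agent.Helper47.T4
open Pool.Agent.Helper40.NSK Pool.Agent.Helper99.EC Pool.Agent.Helper99.CC Pool.Agent.Helper99.LF

noncomputable section

variable {S : Sp} {d k : ℕ}

/-- the digits of the time of the corner -/
def T2 (D : ND S d k) : S.L := TR.dg D.τ (D.e * (D.s + 1))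

/-- FACTS about informations over four nested partitions -/
structure Bk (D : ND S d k) (Z1 Z3 : ∀ k, Setoid (S.F k).Ω) (L0 M0 M L2 X2 Y2 Lx : S.L) (ρ ε P : ℝ) : Prop where
  h1 : Fin2 D.Z Z1
  h3 : Fin2 D.Z' Z3
  /-- the base line of the corner -/
  rL : (fc D.cd.tr).iL = chgL D.Z' D.e D.he L2
  /-- the direction of the corner -/
  rX : (fc D.cd.tr).iX = chgL D.Z' D.e D.he X2
  /-- the base coordinates of the corner -/
  rY : QS.vd (fc D.cd.tr).y 1 = chgL D.Z' D.e D.he Y2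
  /-- the base line in the coarse box -/
  hL : chgL D.Z' 1 one_pos L0 ≤ chgL D.Z' 1 one_pos L2
  /-- the base point in the coarse box -/
  hM : chgL D.Z' 1 one_pos M0 ≤ chgL D.Z' 1 one_pos (Y2 ⊔ T2 D)
  hLM : chgL D.Z 1 one_pos M0 ≤ chgL D.Z 1 one_pos (L0 ⊔ TR.dg D.τ D.e)
  hM0 : chgL D.Z 1 one_pos M0 ≤ chgL D.Z 1 one_pos M
  /-- what is known to the line `Lx` -/
  l0 : chgL D.Z 1 one_pos L0 ≤ chgL D.Z 1 one_pos Lx
  l2 : chgL D.Z' 1 one_pos L2 ≤ chgL D.Z' 1 one_pos Lx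
  g0 : chgL D.Z 1 one_pos (gd D.g (D.e * (D.σ + D.v))) ≤ chgL D.Z 1 one_pos Lx
  g2 : chgL D.Z' 1 one_pos (gd D.g (D.e * (D.σ + D.v))) ≤ chgL D.Z' 1 one_pos Lx
  /-- the time is uniform given the line -/
  t0 : D.e ≤ h (chgL D.Z 1 one_pos (TR.dg D.τ D.e)) (chgL D.Z 1 one_pos Lx)
  t2 : D.e ≤ h (chgL D.Z' 1 one_pos (T2 D)) (chgL D.Z' 1 one_pos Lx)
  /-- the base point is full over `D.Z'` -/
  y2 : d * D.e ≤ h (chgL D.Z' 1 one_pos Y2) (chgL D.Z' 1 one_pos (T2 D))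
  /-- the base point is full over `Z3` -/
  f3 : h (chgL D.Z' 1 one_pos M) (chgL D.Z' 1 one_pos (Y2 ⊔ T2 D)) - ε * D.e ≤ H (chgL Z3 1 one_pos M)
  k3 : chgL Z3 1 one_pos (Y2 ⊔ T2 D) = ⊥
  z3 : chgL Z3 1 one_pos (TR.dg D.ζ (D.e * (D.σ + D.v))) = ⊥
  /-- hull (T7) -/
  hu : h (chgL D.Z' 1 one_pos (TR.dg D.ζ (D.e * D.σ))) (chgL D.Z' 1 one_pos M) ≤ ε * D.e
  /-- directions (R1) -/
  r1 : H (chgL D.Z' 1 one_pos X2) - H (chgL Z3 1 one_pos X2) ≤ ε * D.e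
  /-- the base point over `D.Z`, `Z1`: robust upper bound, full over `Z1` -/
  f1 : ∃ a : ℝ, (∀ (T : Sp) (p : Pj T (S.chg D.Z D.e D.he)) (E : ∀ k, (T.F k).Ω → Prop) (hE : 0 < ul (T.pr E)),
      h (restL E hE (p.map (chgL D.Z D.e D.he M))) (restL E hE (p.map (chgL D.Z D.e D.he M0))) ≤ a / D.e) ∧
    a - ε * D.e ≤ H (chgL Z1 1 one_pos M)
  k1 : chgL Z1 1 one_pos M0 = ⊥
  z1 : chgL Z1 1 one_pos (TR.dg D.ζ (D.e * (D.σ + D.v))) = ⊥
  /-- unsaturation given all digits of the base point (D), (T6) -/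
  un : ∀ (T : Sp) (p : Pj T (S.chg D.Z D.e D.he)) (E : ∀ k, (T.F k).Ω → Prop) (hE : 0 < ul (T.pr E)),
    P ≤ ul (T.pr E) → ∀ a b : ℝ, 0 ≤ a → a ≤ b → b ≤ D.σ + D.v →
    h (restL E hE (p.map (chgL D.Z D.e D.he (TR.dg D.ζ (D.e * b)))))
      (restL E hE (p.map (chgL D.Z D.e D.he (TR.dg D.ζ (D.e * a) ⊔ M)))) ≤ (1 - ρ) * (b - a) + ε

namespace Bk

variable {D : ND S d k} {Z1 Z3 : ∀ k, Setoid (S.F k).Ω} {L0 M0 M L2 X2 Y2 Lx : S.L} {ρ ε P : ℝ}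

/-- **THE FACTS `ND.Fct`** -/
theorem fct (B : Bk D Z1 Z3 L0 M0 M L2 X2 Y2 Lx ρ ε P) (hε : 0 ≤ ε) (hP : 0 < P) (hP1 : P ≤ 1) (hεP : 3 * ε ≤ P ^ 2)
    {N : ℕ} (st : ∃ w : QS.CQ D.U (fc D.cd.tr).fB N, ∀ e : Fin (d + 1) → Fin (N + 1), Function.Injective e →
      Big (Matrix.of fun i j => (w.p (e i)).qs ((fc D.cd.tr).v j)).det P) : D.Fct N ρ P L0 M0 := by
  have he := D.he
  have hP2 : P ^ 2 ≤ P := by nlinarith
  have h2ε : 2 * ε ≤ P := by linarith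
  have eT : QS.dg (fc D.cd.tr).t 1 = chgL D.Z' D.e D.he (T2 D) := by
    show QS.dg (QS.mk D.cd.t) 1 = _
    rw [QS.dg_mk _ le_rfl]
    exact D.t_dg 1
  have eQ : (fc D.cd.tr).iQ = chgL D.Z' D.e D.he (Y2 ⊔ T2 D) := by
    unfold FC.iQ
    rw [B.rY, eT, chgL_sup]
  have hσv : D.σ ≤ D.σ + D.v := by linarith [D.hv]
  have gdm : gd D.g (D.e * D.σ) ≤ gd D.g (D.e * (D.σ + D.v)) := gd_mono _ (mul_le_mul_of_nonneg_left hσv he.le)
  have ζm : TR.dg D.ζ (D.e * D.σ) ≤ TR.dg D.ζ (D.e * (D.σ + D.v)) :=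
    TR.dg_mono _ (mul_le_mul_of_nonneg_left hσv he.le)
  refine { hL := ?_, hM := ?_, hLM := ?_, tm := ?_, un := ?_, ht := ?_, kn := ?_, hi := ?_, hy := ?_, st := st }
  · rw [B.rL, unit_le]
    exact B.hL
  · rw [eQ, unit_le]
    exact B.hM
  · rw [mul_one, unit_le]
    exact B.hLM
  · rw [mul_one, h_unit, le_div_iff₀ he]
    have h1 : chgL D.Z 1 one_pos (L0 ⊔ gd D.g (D.e * D.σ)) ≤ chgL D.Z 1 one_pos Lx := by
      rw [chgL_sup]
      exact _root_.sup_le B.l0 ((chgL_mono _ _ _ gdm).trans B.g0)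
    have h2 := B.t0.trans (h_anti h1)
    have h3 : (1 - P) * D.e ≤ D.e := by nlinarith
    exact h3.trans h2
  · intro T p E hE hEP a b ha hab hb
    obtain ⟨a0, f1, f2⟩ := B.f1
    have ebm : TR.dg D.ζ (D.e * b) ≤ TR.dg D.ζ (D.e * (D.σ + D.v)) :=
      TR.dg_mono _ (mul_le_mul_of_nonneg_left hb he.le)
    have eam : TR.dg D.ζ (D.e * a) ≤ TR.dg D.ζ (D.e * (D.σ + D.v)) :=
      TR.dg_mono _ (mul_le_mul_of_nonneg_left (hab.trans hb) he.le)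
    have k1 : chgL Z1 D.e D.he M0 = ⊥ := (unit_bot Z1 D.he).mpr B.k1
    have z1 : chgL Z1 D.e D.he (TR.dg D.ζ (D.e * (D.σ + D.v))) = ⊥ := (unit_bot Z1 D.he).mpr B.z1
    have h1 := un_trans' B.h1 (he := D.he) (W := TR.dg D.ζ (D.e * (D.σ + D.v))) (M0 := M0) (Mf := M) (Mx := a0 / D.e)
      (ε := ε) ((unit_le D.Z D.he).mpr B.hM0) (by rw [z1, h_zero bot_le]; exact hε)
      (by
        rw [k1, h_bot, H_unit, ← sub_nonneg]
        have e1 : H (chgL Z1 1 one_pos M) / D.e - (a0 / D.e - ε) =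
            (H (chgL Z1 1 one_pos M) - (a0 - ε * D.e)) / D.e := by field_simp
        rw [e1]
        exact div_nonneg (sub_nonneg.mpr f2) he.le)
      f1 p E hE hP hEP ebm eam
    have h2 := B.un T p E hE hEP a b ha hab hb
    have h3 : 2 * ε / P ≤ 2 / 3 * P := by
      rw [div_le_iff₀ hP]
      nlinarith
    have h4 : ε ≤ P / 3 := by linarith
    linarith
  · rw [B.rL, ← chgL_sup, h_unit, le_div_iff₀ he]
    have h1 : chgL D.Z' 1 one_pos (L2 ⊔ gd D.g (D.e * (D.σ + D.v))) ≤ chgL D.Z' 1 one_pos Lx := by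
      rw [chgL_sup]
      exact _root_.sup_le B.l2 B.g2
    have h2 := B.t2.trans (h_anti h1)
    have h3 : (1 - P) * D.e ≤ D.e := by nlinarith
    exact h3.trans h2
  · rw [eQ, h_unit, div_le_iff₀ he]
    have h1 := kn_of B.h3 (ζ := TR.dg D.ζ (D.e * D.σ)) (M0 := Y2 ⊔ T2 D) (M := M)
      (a := h (chgL D.Z' 1 one_pos M) (chgL D.Z' 1 one_pos (Y2 ⊔ T2 D))) (δ := ε * D.e) (ε := ε * D.e) B.hu
      (by
        rw [chgL_sup, B.k3, sup_bot_eq]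
        exact le_bot_iff.mp (B.z3 ▸ chgL_mono _ _ _ ζm)) le_rfl B.f3
    have h2 : ε * D.e + ε * D.e ≤ P * D.e := by nlinarith
    exact h1.trans h2
  · rw [B.rX, B.rY]
    have h1 := hi_of B.h3 (X := X2) (W := Y2 ⊔ TR.dg D.ζ (D.e * (D.σ + D.v))) (τ := T2 D) (δ := ε * D.e)
      (by
        have e1 : Y2 ⊔ TR.dg D.ζ (D.e * (D.σ + D.v)) ⊔ T2 D = (Y2 ⊔ T2 D) ⊔ TR.dg D.ζ (D.e * (D.σ + D.v)) := by
          rw [sup_right_comm]
        rw [e1, chgL_sup, B.k3, B.z3, sup_bot_eq]) B.r1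
    rw [← chgL_sup]
    rw [I_eq, ← chgL_sup] at h1 ⊢
    have e3 : TR.dg D.τ (D.e * (D.s + 1)) = T2 D := rfl
    rw [e3, h_unit D.Z' D.he, h_unit D.Z' D.he, ← sub_div, div_le_iff₀ he]
    have h2 : ε * D.e ≤ P * D.e := by nlinarith
    exact h1.trans h2
  · rw [B.rY, h_unit, le_div_iff₀ he]
    have h2 := B.y2
    have h3 : ((d : ℝ) - P) * D.e ≤ d * D.e := by nlinarith
    exact h3.trans h2

end Bk

theorem big_mono {U : Sp} {f : QS U} {ε ε' : ℝ} (h : ε ≤ ε') (hf : Big f ε) : Big f ε' :=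
  fun δ hδ => (hf δ (lt_of_le_of_lt h hδ)).trans h

theorem fct_mono {D : ND S d k} {N : ℕ} {ρ ε ε' : ℝ} {L0 M0 : S.L} (h : ε ≤ ε') (F : D.Fct N ρ ε L0 M0) :
    D.Fct N ρ ε' L0 M0 where
  hL := F.hL
  hM := F.hM
  hLM := F.hLM
  tm := (by linarith [F.tm] : 1 - ε' ≤ _)
  un := fun T p E hE hEP a b ha hab hb => (F.un T p E hE (h.trans hEP) a b ha hab hb).trans (by linarith)
  ht := (sub_le_sub_left h 1).trans F.ht
  kn := F.kn.trans h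
  hi := F.hi.trans h
  hy := (sub_le_sub_left h _).trans F.hy
  st := by
    obtain ⟨w, hw⟩ := F.st
    exact ⟨w, fun e he => big_mono h (hw e he)⟩

namespace Bk

/-- **FLAT CORNER** from the facts -/
theorem corner (k : ℕ) (ρ : ℝ) (hρ : 0 < ρ) (hρ1 : ρ ≤ 1) (η : ℝ) (hη : 0 < η) : ∃ P : ℝ, 0 < P ∧ P ≤ 1 ∧
    ∀ (S : Sp) (d N : ℕ) (D : ND S d k) (Z1 Z3 : ∀ k, Setoid (S.F k).Ω) (L0 M0 M L2 X2 Y2 Lx : S.L) (ε : ℝ),
      0 ≤ ε → 3 * ε ≤ P ^ 2 → Bk D Z1 Z3 L0 M0 M L2 X2 Y2 Lx ρ ε P →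
      (∃ w : QS.CQ D.U (fc D.cd.tr).fB N, ∀ e : Fin (d + 1) → Fin (N + 1), Function.Injective e →
        Big (Matrix.of fun i j => (w.p (e i)).qs ((fc D.cd.tr).v j)).det P) → CorH (fc D.cd.tr) N ρ η := by
  obtain ⟨P, hP, h1⟩ := T4.corner k ρ hρ hρ1 η hη
  obtain ⟨Q, hQ⟩ : ∃ Q, Q = min P 1 := ⟨_, rfl⟩
  refine ⟨Q, by rw [hQ]; exact lt_min hP one_pos, by rw [hQ]; exact min_le_right _ _, ?_⟩
  intro S d N D Z1 Z3 L0 M0 M L2 X2 Y2 Lx ε hε hεQ B st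
  have hQ0 : 0 < Q := by rw [hQ]; exact lt_min hP one_pos
  have hQ1 : Q ≤ 1 := by rw [hQ]; exact min_le_right _ _
  have hQP : Q ≤ P := by rw [hQ]; exact min_le_left _ _
  exact h1 S d N D L0 M0 (fct_mono hQP (B.fct hε hQ0 hQ1 hεQ st))

end Bk

end

end Pool.Agent.Helper47.CA
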