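import Pool.Agent.Helper47.CA.Dig

/-!
# Entropy bookkeeping over nested partitions

Pure statements about informations over a partition `Z` and a finer partition `Z'`: time, hull, directions, fullness, and
the transfer of unsaturation; all informations are elements of `S.L`.
-/

set_option autoImplicit false

namespace Pool.Agent.Helper47.CA

open Finset Filter Topology Pool.Agent.Helper69.RK Pool.Agent.Helper31.EC Pool.Agent.Helper31.EC.Sp
open Pool.Agent.Helper60.CS Pool.Agent.Helper98.FR Pool.Agent.Helper47.T4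

noncomputable section

variable {S : Sp}

theorem tr_h_dg (f : TR S) {a b : ℝ} (hab : a ≤ b) : h (TR.dg f b) (TR.dg f a) ≤ b - a := by
  have h1 := (TR.vec (fun _ : Fin 1 => f)).h_dg_dg hab
  rw [Nat.cast_one, one_mul] at h1
  exact h1

theorem chg_h_dg (Z : ∀ k, Setoid (S.F k).Ω) (f : TR S) {a b : ℝ} (hab : a ≤ b) :
    h (chgL Z 1 one_pos (TR.dg f b)) (chgL Z 1 one_pos (TR.dg f a)) ≤ b - a := by
  refine (h_chg_div (Z' := Z) (e := 1) (he := one_pos) _ _).trans ?_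
  rw [div_one]
  exact tr_h_dg f hab

theorem tr_dg_bot {f : TR S} {r s : ℝ} (hr : r ≤ 1) (hf : QS.mk f ∈ QS.Id S r) (hs : s ≤ r) : TR.dg f s = ⊥ := by
  rw [← QS.dg_mk f (hs.trans hr)]
  exact QS.dg_of_mem_Id hf hs (hs.trans hr)

variable {Z Z' : ∀ k, Setoid (S.F k).Ω}

/-- TIME: the first digits of the time are uniform given what is known to the line -/
theorem time_of {A L : S.L} {f : TR S} {q b : ℝ} (hb : b ≤ 1)
    (h1 : 1 - q ≤ h (chgL Z 1 one_pos (TR.dg f 1)) (chgL Z 1 one_pos L))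
    (hA : chgL Z 1 one_pos A ≤ chgL Z 1 one_pos L) :
    b - q ≤ h (chgL Z 1 one_pos (TR.dg f b)) (chgL Z 1 one_pos A) := by
  have e1 : TR.dg f b ⊔ TR.dg f 1 = TR.dg f 1 := sup_eq_right.mpr (TR.dg_mono f hb)
  have e2 : chgL Z 1 one_pos (TR.dg f 1) = chgL Z 1 one_pos (TR.dg f b) ⊔ chgL Z 1 one_pos (TR.dg f 1) := by
    rw [← chgL_sup, e1]
  rw [e2, h_chain] at h1
  have e3 : h (chgL Z 1 one_pos (TR.dg f 1)) (chgL Z 1 one_pos (TR.dg f b) ⊔ chgL Z 1 one_pos L) ≤ 1 - b :=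
    (h_anti le_sup_left).trans (chg_h_dg Z f hb)
  have e4 := h_anti (A := chgL Z 1 one_pos (TR.dg f b)) hA
  linarith

/-- HULL: what is known to all digits `M` of the base point is known to its first digits `M0`, if it is known to the finer
label and the base point is full over the finer label -/
theorem kn_of (hZ : Fin2 Z Z') {ζ M0 M : S.L} {a δ ε : ℝ}
    (h0 : h (chgL Z 1 one_pos ζ) (chgL Z 1 one_pos M) ≤ ε) (hk : chgL Z' 1 one_pos (ζ ⊔ M0) = ⊥)
    (hup : h (chgL Z 1 one_pos M) (chgL Z 1 one_pos M0) ≤ a) (hlow : a - δ ≤ H (chgL Z' 1 one_pos M)) :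
    h (chgL Z 1 one_pos ζ) (chgL Z 1 one_pos M0) ≤ δ + ε := by
  have a1 := I_eq (chgL Z 1 one_pos ζ) (chgL Z 1 one_pos M) (chgL Z 1 one_pos M0)
  have a2 := I_eq' (chgL Z 1 one_pos ζ) (chgL Z 1 one_pos M) (chgL Z 1 one_pos M0)
  have a3 : h (chgL Z 1 one_pos ζ) (chgL Z 1 one_pos M ⊔ chgL Z 1 one_pos M0) ≤ ε := (h_anti le_sup_left).trans h0
  have a4 := h_nest_le hZ one_pos M (ζ ⊔ M0)
  rw [hk, h_bot, chgL_sup] at a4
  linarith

/-- DIRECTIONS -/
theorem hi_of (hZ : Fin2 Z Z') {X W τ : S.L} {δ : ℝ} (hk : chgL Z' 1 one_pos (W ⊔ τ) = ⊥)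
    (hX : H (chgL Z 1 one_pos X) - H (chgL Z' 1 one_pos X) ≤ δ) :
    I (chgL Z 1 one_pos X) (chgL Z 1 one_pos W) (chgL Z 1 one_pos τ) ≤ δ := by
  rw [I_eq]
  have a1 := h_le_H (chgL Z 1 one_pos X) (chgL Z 1 one_pos τ)
  have a2 := h_nest_le hZ one_pos X (W ⊔ τ)
  rw [hk, h_bot, chgL_sup] at a2
  linarith

/-! ### events of extensions -/

section ev

variable {e : ℝ} {he : 0 < e} {T : Sp} (p : Pj T (S.chg Z e he)) (E : ∀ k, (T.F k).Ω → Prop) (hE : 0 < ul (T.pr E))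

/-- digits on events of extensions -/
theorem ev_h_dg (f : TR S) {a b : ℝ} (hab : a ≤ b) :
    h (restL E hE (p.map (chgL Z e he (TR.dg f b)))) (restL E hE (p.map (chgL Z e he (TR.dg f a)))) ≤ (b - a) / e := by
  have key : ∀ r : ℝ, restL E hE (p.map (chgL Z e he (TR.dg f r))) =
      TR.dg (TR.rest E (p.tr (trc Z e he f))) (r / e) := by
    intro r
    rw [TR.rest_dg E hE, Pj.tr_dg, trc_dg]
    congr 4
    field_simp
  rw [key, key]
  refine (tr_h_dg _ (div_le_div_of_nonneg_right hab he.le)).trans (le_of_eq ?_)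
  rw [sub_div]

end ev

/-- TRANSFER OF UNSATURATION, `M0` known to `Mf` over the label -/
theorem un_trans' (hZ : Fin2 Z Z') {e : ℝ} {he : 0 < e} {W M0 Mf : S.L} {Mx ε : ℝ}
    (hM0 : chgL Z e he M0 ≤ chgL Z e he Mf)
    (hW : h (chgL Z' e he W) (chgL Z' e he M0) ≤ ε)
    (hfull : Mx - ε ≤ h (chgL Z' e he Mf) (chgL Z' e he M0))
    (hMx : ∀ (T : Sp) (p : Pj T (S.chg Z e he)) (E : ∀ k, (T.F k).Ω → Prop) (hE : 0 < ul (T.pr E)),
      h (restL E hE (p.map (chgL Z e he Mf))) (restL E hE (p.map (chgL Z e he M0))) ≤ Mx)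
    {T : Sp} (p : Pj T (S.chg Z e he)) (E : ∀ k, (T.F k).Ω → Prop) (hE : 0 < ul (T.pr E)) {P : ℝ} (hP : 0 < P)
    (hEP : P ≤ ul (T.pr E)) {X A : S.L} (hX : X ≤ W) (hA : A ≤ W) :
    h (restL E hE (p.map (chgL Z e he X))) (restL E hE (p.map (chgL Z e he (A ⊔ M0)))) ≤
      h (restL E hE (p.map (chgL Z e he X))) (restL E hE (p.map (chgL Z e he (A ⊔ Mf)))) + 2 * ε / P := by
  have s1 : ∀ (T : Sp) (p : Pj T (S.chg Z e he)) (E : ∀ k, (T.F k).Ω → Prop) (hE : 0 < ul (T.pr E)) (x y : S.L),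
      restL E hE (p.map (chgL Z e he (x ⊔ y))) =
        restL E hE (p.map (chgL Z e he x)) ⊔ restL E hE (p.map (chgL Z e he y)) := fun T p E hE x y => by
    rw [chgL_sup, p.map_sup, restL_sup]
  have h1 := un_trans hZ (W := W) (M0 := M0) (Mf := Mf ⊔ M0) (Mx := Mx) (ε := ε) le_sup_right hW
    (hfull.trans (h_mono (chgL_mono _ _ _ le_sup_left)))
    (fun T p E hE => by
      rw [s1, h_sup_right_of_le le_rfl]
      exact hMx T p E hE) p E hE hP hEP hX hA
  have h2 : restL E hE (p.map (chgL Z e he (A ⊔ (Mf ⊔ M0)))) = restL E hE (p.map (chgL Z e he (A ⊔ Mf))) := by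
    rw [← sup_assoc, s1 T p E hE (A ⊔ Mf) M0]
    apply sup_eq_left.mpr
    refine (restL_mono E hE (p.map_mono hM0)).trans (restL_mono E hE (p.map_mono (chgL_mono _ _ _ le_sup_right)))
  rw [h2] at h1
  exact h1

end

end Pool.Agent.Helper47.CA
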