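import Pool.Agent.Helper47.CA.Bx
import Pool.Agent.Helper98.FR.Ex
import Pool.Agent.Helper11.TZ.T3
import Pool.Agent.Helper35.T4.Main

/-!
# The corner of case A: top coordinate `2 ^ (η n) q(P)` of helper11, box of helper98

The fields T5, T7 and (D) of `NDB.bk` from the structure `Top` at the windows `c` and `c'`.
-/

set_option autoImplicit false

namespace Pool.Agent.Helper47.CA

open Finset Filter Topology Matrix MvPolynomial Pool.Agent.Helper69.RK Pool.Agent.Helper31.EC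
open Pool.Agent.Helper31.EC.Sp Pool.Agent.Helper40.EL
open Pool.Agent.Helper60.CS Pool.Agent.Helper98.FR Pool.Agent.Helper47.T4 Pool.Agent.Helper11.TZ
open Pool.Agent.Helper40.NSK Pool.Agent.Helper99.EC Pool.Agent.Helper99.CC Pool.Agent.Helper99.LF
open Pool.Agent.Helper89.LX Pool.Agent.Helper3.LF Pool.Agent.Helper3.PR Pool.Agent.Helper42.NS

noncomputable section

variable {S : Sp} {s : Sys S 3} {q lam eta : ℕ → ℝ} {L : ℕ → Lab S} (b : Bx s q lam eta L)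

/-- the base point -/
theorem oth_eq : oth b.sy 2 = Mall b.bd := by
  have e1 : (Finset.univ : Finset (Fin 3)).filter (fun j => j ≠ 2) = {0, 1} := by decide
  unfold oth
  rw [e1, Finset.sup_insert, Finset.sup_singleton, ← T_eq b.sy]
  rfl

/-- **FACTS OF THE CORNER OF CASE A** -/
theorem bk_top {i0 i1 i2 i3 k : ℕ} (N : NDB b.ld i0 i2 k) {D D' : ℕ}
    {p : ∀ k, (b.M.sp.F k).Ω → Mon (3 + 1) D → ℝ} {p' : ∀ k, (b.M.sp.F k).Ω → Mon (3 + 1) D' → ℝ} {η η' : ℝ}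
    (hT : Top b.sy (b.bd.V i0) D (q i0) η (fun _ => Pi.single 2 1) p)
    (hT' : Top b.sy (b.bd.V i2) D' (q i2) η' (fun _ => Pi.single 2 1) p')
    (hη0 : 0 ≤ η) (hη1 : η < 1) (hη' : η' < 1) (hηη : η ≤ η') (h1 : η + N.e * (N.σ + N.v) ≤ 1)
    (K : ℕ → ℝ) (hK : b.M.sp.Sub K)
    (hKt : Typ (S := b.M.sp) (fun k ω => |eval (ptf b.sy k ω) (pol (p k ω))| ≤ K k))
    (hζ : TR.Te N.ζ (zt b.sy p K hK))
    {bb : ℝ} (hd : b.bd.Dn i0 bb) (h01 : q i1 = q i0 + N.e) (h23 : q i3 = q i2 + N.e) (hb : q i3 ≤ bb)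
    {ρ ε P : ℝ} (hε : 0 ≤ ε) (h2 : η + N.e * N.σ ≤ η' + ε * N.e)
    (g0 : chgL (b.bd.V i0) 1 one_pos (gd N.g (N.e * (N.σ + N.v))) ≤ chgL (b.bd.V i0) 1 one_pos b.ld.L)
    (r1 : H (chgL (b.bd.V i2) 1 one_pos N.X2) - H (chgL (b.bd.V i3) 1 one_pos N.X2) ≤ ε * N.e)
    (sp1 : lam i1 ≤ lam i0 + N.e + ε * N.e) (sp3 : lam i3 ≤ lam i2 + N.e + ε * N.e)
    (hD : ∀ (T : Sp) (pr : Pj T (b.M.sp.chg (b.bd.V i0) N.e N.he)) (E : ∀ k, (T.F k).Ω → Prop)
      (hE : 0 < ul (T.pr E)), P ≤ ul (T.pr E) → ∀ a b' : ℝ, 0 ≤ a → a ≤ b' → b' ≤ N.σ + N.v →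
      h (restL E hE (pr.map (chgL (b.bd.V i0) N.e N.he (TR.dg (TR.cor b.sy.P 2) (η + N.e * b')))))
        (restL E hE (pr.map (chgL (b.bd.V i0) N.e N.he (TR.dg (TR.cor b.sy.P 2) (η + N.e * a) ⊔ oth b.sy 2)))) ≤
          (1 - ρ) * (b' - a) + ε) :
    Bk N.nd (b.bd.V i1) (b.bd.V i3) (lineI b.ld i0 N.e) (ptI b.bd i0 N.e) (Mall b.bd) (lineI b.ld i2 N.e) N.X2 N.Y2
      b.ld.L ρ ε P := by
  have he := N.he
  have hσv : 0 ≤ N.σ + N.v := add_nonneg N.hσ N.hv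
  have hes := mul_nonneg he.le N.hσ
  have hesv := mul_nonneg he.le hσv
  have hsv : N.e * (N.σ + N.v) ≤ N.e := mul_le_of_le_one_right he.le N.h1
  have q01 : q i0 ≤ q i1 := by linarith
  have q13 : b.bd.q i0 ≤ b.bd.q i2 := N.q02
  have q02 : q i0 ≤ q i2 := q13
  have fin : ∀ i j, q i ≤ q j → Fin2 (b.bd.V i) (b.bd.V j) := fun i j h k ω ω' _ _ _ h' => b.nest i j h k h'
  have dζ : ∀ u, TR.dg N.ζ u = TR.dg (zt b.sy p K hK) u := fun u => hζ.dg_eq u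
  refine N.bk (fun i j h k => b.nest i j h k) hd h01 h23 hb g0 ?_ ?_ r1 sp1 sp3 ?_
  · rw [dζ]
    exact Top.bot (l := b.M.lab i1) (b.kap i1) (fin i0 i1 q01) hT K hK hKt hesv h1
      (by rw [h01]; linarith) 1 one_pos
  · rw [dζ]
    have h3 := Top.kn (Pool.Agent.Helper35.T4.st_T4) (N.hZ) hT hT' (by linarith) hη' hηη K hK hKt 1 one_pos
    rw [oth_eq] at h3
    obtain ⟨a, ha⟩ : ∃ a, a = min (N.e * N.σ) (η' - η) := ⟨_, rfl⟩
    have ha1 : a ≤ N.e * N.σ := by rw [ha]; exact min_le_left _ _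
    have ha2 : a ≤ η' - η := by rw [ha]; exact min_le_right _ _
    have ha3 : N.e * N.σ - a ≤ ε * N.e := by
      have := mul_nonneg hε he.le
      rcases min_choice (N.e * N.σ) (η' - η) with h5 | h5
      · rw [ha, h5]; linarith
      · rw [ha, h5]; linarith
    have h4 : h (chgL (b.bd.V i2) 1 one_pos (TR.dg (zt b.sy p K hK) a)) (chgL (b.bd.V i2) 1 one_pos (Mall b.bd)) = 0 :=
      h_zero ((chgL_mono _ _ _ (TR.dg_mono _ ha2)).trans h3)
    have h5 := h_triangle (chgL (b.bd.V i2) 1 one_pos (TR.dg (zt b.sy p K hK) (N.e * N.σ)))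
      (chgL (b.bd.V i2) 1 one_pos (TR.dg (zt b.sy p K hK) a)) (chgL (b.bd.V i2) 1 one_pos (Mall b.bd))
    have h6 := chg_h_dg (b.bd.V i2) (zt b.sy p K hK) ha1
    have h7 : h (chgL (b.bd.V i2) 1 one_pos (TR.dg (zt b.sy p K hK) (N.e * N.σ)))
        (chgL (b.bd.V i2) 1 one_pos (TR.dg (zt b.sy p K hK) a) ⊔ chgL (b.bd.V i2) 1 one_pos (Mall b.bd)) ≤
        N.e * N.σ - a := (h_anti le_sup_left).trans h6
    linarith
  · intro T pr E hE hP a b' ha hab hb'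
    rw [dζ, dζ, ← oth_eq]
    have hb1 : η + N.e * b' ≤ 1 := by
      have := mul_le_mul_of_nonneg_left hb' he.le
      linarith
    have h3 := Top.un (Pool.Agent.Helper35.T4.st_T4) hT hη0 hη1 K hK hKt (mul_nonneg he.le ha)
      (mul_le_mul_of_nonneg_left hab he.le) hb1 N.e N.he pr E hE
    exact h3.trans (hD T pr E hE hP a b' ha hab hb')

end

end Pool.Agent.Helper47.CA
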