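import Pool.Agent.Helper47.CA.Ful
import Pool.Agent.Helper47.CA.Bk

/-!
# The corner over nested labels in the box of helper98

`NDB D i0 i2 k`: the data of a corner in the box `B`, `D : LD B`, windows `c = q i0`, `c' = q i2 = c + e s`: the time `τ`
and its centre `τ0`, the coefficients `g` and the top coordinate `ζ` of the window `c`. `NDB.nd : ND S 2 k`.
`NDB.bk`: the facts `Bk` from: the coefficients are known to the line, T5, T7, (R1), (SP), (D).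
-/

set_option autoImplicit false

namespace Pool.Agent.Helper47.CA

open Finset Filter Topology Pool.Agent.Helper69.RK Pool.Agent.Helper31.EC Pool.Agent.Helper31.EC.Sp
open Pool.Agent.Helper60.CS Pool.Agent.Helper98.FR Pool.Agent.Helper47.T4
open Pool.Agent.Helper40.NSK Pool.Agent.Helper99.EC Pool.Agent.Helper99.CC Pool.Agent.Helper99.LF

noncomputable section

variable {S : Sp}

theorem typ_dg {f g : TR S} {r : ℝ} (h : Typ (S := S) (fun k ω => f.1 k ω = S.dl r k * g.1 k ω)) (u : ℝ) :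
    TR.dg g u = TR.dg f (r + u) := by
  apply le_antisymm
  · apply VV.dg_le_dg _ _ _ _ _ h (fun _ => 1) (S.Sub_const zero_le_one)
    refine Eventually.of_forall fun k ω ω' _ _ e1 e2 _ q i => ?_
    have g1 : |f.1 k ω - f.1 k ω'| ≤ S.dl (r + u) k := q 0
    show |g.1 k ω - g.1 k ω'| ≤ 1 * S.dl u k
    rw [e1, e2, ← mul_sub, abs_mul, abs_of_pos (S.dl_pos r k), dl_add] at g1
    rw [one_mul]
    exact le_of_mul_le_mul_left g1 (S.dl_pos r k)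
  · apply VV.dg_le_dg _ _ _ _ _ h (fun _ => 1) (S.Sub_const zero_le_one)
    refine Eventually.of_forall fun k ω ω' _ _ e1 e2 _ q i => ?_
    have g1 : |g.1 k ω - g.1 k ω'| ≤ S.dl u k := q 0
    show |f.1 k ω - f.1 k ω'| ≤ 1 * S.dl (r + u) k
    rw [e1, e2, ← mul_sub, abs_mul, abs_of_pos (S.dl_pos r k), dl_add, one_mul]
    exact mul_le_mul_of_nonneg_left g1 (S.dl_pos r k).le

theorem vd_two {U : Sp} (f : Fin 2 → QS U) (r : ℝ) : QS.vd f r = QS.dg (f 0) r ⊔ QS.dg (f 1) r := by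
  apply le_antisymm
  · rw [QS.vd_le]
    intro i
    fin_cases i
    · exact le_sup_left
    · exact le_sup_right
  · exact _root_.sup_le (QS.dg_le_vd f r 0) (QS.dg_le_vd f r 1)

theorem vd_two' {U : Sp} {f : Fin 2 → QS U} {a b : TR U} (h0 : f 0 = QS.mk a) (h1 : f 1 = QS.mk b) :
    QS.vd f 1 = TR.dg a 1 ⊔ TR.dg b 1 := by
  rw [vd_two, h0, h1, QS.dg_mk _ le_rfl, QS.dg_mk _ le_rfl]

/-- DATA of a corner in the box -/
structure NDB {B : BD S} (D : LD B) (i0 i2 k : ℕ) where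
  e : ℝ
  he : 0 < e
  s : ℝ
  σ : ℝ
  v : ℝ
  hs : 0 ≤ s
  hσ : 0 ≤ σ
  hv : 0 ≤ v
  hvs : v ≤ s
  h1 : σ + v ≤ 1
  h02 : B.q i2 = B.q i0 + e * s
  hZ : Fin2 (B.V i0) (B.V i2)
  τ : TR S
  τ0 : TR S
  hτt : Typ (S := S) (fun k ω => B.t.1 k ω - (B.tc i0).1 k ω = S.dl (B.q i0) k * τ.1 k ω)
  hτ0t : Typ (S := S) (fun k ω => (B.tc i2).1 k ω - (B.tc i0).1 k ω = S.dl (B.q i0) k * τ0.1 k ω)
  hτ0 : ∀ᶠ k in UF, ∀ ω ω', (S.F k).μ ω ≠ 0 → (S.F k).μ ω' ≠ 0 → (B.V i2 k ⊓ (S.F k).Z) ω ω' →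
    τ0.1 k ω = τ0.1 k ω'
  g : Fin (k + 1) → TR S
  ζ : TR S
  hζ : TR.Te ζ (∑ i : Fin (k + 1), g i * τ ^ (i : ℕ))

namespace NDB

variable {B : BD S} {D : LD B} {i0 i2 k : ℕ} (N : NDB D i0 i2 k)

theorem tau_bound {K : ℕ → ℝ} (hK : Typ (S := S) (fun k ω => |(B.t - B.tc i2).1 k ω - 0| ≤ K k * S.dl (B.q i2) k)) :
    Typ (S := S) (fun k ω => |N.τ.1 k ω - N.τ0.1 k ω| ≤ K k * S.dl (N.e * N.s) k) := by
  refine ((hK.and N.hτt).and N.hτ0t).mono (Eventually.of_forall fun k ω _ h => ?_)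
  obtain ⟨⟨h1, h2⟩, h3⟩ := h
  have e1 : (B.t - B.tc i2).1 k ω - 0 = S.dl (B.q i0) k * (N.τ.1 k ω - N.τ0.1 k ω) := by
    rw [mul_sub, ← h2, ← h3, sub_zero]
    show B.t.1 k ω - (B.tc i2).1 k ω = _
    ring
  rw [e1, abs_mul, abs_of_pos (S.dl_pos _ k), N.h02, dl_add] at h1
  have h4 : S.dl (B.q i0) k * |N.τ.1 k ω - N.τ0.1 k ω| ≤ S.dl (B.q i0) k * (K k * S.dl (N.e * N.s) k) :=
    h1.trans (le_of_eq (by ring))
  exact le_of_mul_le_mul_left h4 (S.dl_pos _ k)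

/-- the bound of the time in the fine box -/
def K (_N : NDB D i0 i2 k) : ℕ → ℝ := (exists_K (B.q1 i2) (B.T_mem i2)).choose

theorem hK : S.Sub N.K := (exists_K (B.q1 i2) (B.T_mem i2)).choose_spec.1

theorem hτ : Typ (S := S) (fun k ω => |N.τ.1 k ω - N.τ0.1 k ω| ≤ N.K k * S.dl (N.e * N.s) k) :=
  N.tau_bound (exists_K (B.q1 i2) (B.T_mem i2)).choose_spec.2

/-- THE CORNER over nested labels -/
def nd : ND S 2 k where
  Z := B.V i0
  Z' := B.V i2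
  hZ := N.hZ
  e := N.e
  he := N.he
  s := N.s
  σ := N.σ
  v := N.v
  hs := N.hs
  hσ := N.hσ
  hv := N.hv
  hvs := N.hvs
  h1 := N.h1
  τ := N.τ
  τ0 := N.τ0
  hτ0 := N.hτ0
  K := N.K
  hK := N.hK
  hτ := N.hτ
  g := N.g
  ζ := N.ζ
  hζ := N.hζ
  a := ![D.iyT i2 N.e N.he, D.irT i2 N.e N.he]
  x := ![D.xT i2 N.e N.he, D.vrT i2 N.e N.he]

/-- the time of the corner -/
def tN : TR (B.Sj i2 N.e N.he) := zo (B.V i2) N.e N.he N.τ N.τ0.1 (N.e * N.s) N.K N.hK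

theorem tN_eq : N.nd.cd.t = N.tN := rfl

theorem t_eq : QS.mk N.tN = QS.mk (B.tT i2 N.e N.he) := by
  apply LD.typ_te (r := B.q i2)
  refine ((((zo_typ (B.V i2) N.e N.he N.hK N.hτ).and N.hτt).and N.hτ0t).and
    (nf_typ (hr := B.q1 i2) (hf := B.T_mem i2) (Z := B.V i2) (e := N.e) (he := N.he))).mono
    (Eventually.of_forall fun k ω _ h => ?_)
  obtain ⟨⟨⟨h1, h2⟩, h3⟩, h4⟩ := h
  have h1' : N.τ.1 k ω = N.τ0.1 k ω + S.dl (N.e * N.s) k * N.tN.1 k ω := h1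
  have h4' : B.t.1 k ω - (B.tc i2).1 k ω = S.dl (B.q i2) k * (B.tT i2 N.e N.he).1 k ω := h4
  rw [← h4', N.h02, dl_add]
  have e1 : B.t.1 k ω - (B.tc i2).1 k ω = (B.t.1 k ω - (B.tc i0).1 k ω) - ((B.tc i2).1 k ω - (B.tc i0).1 k ω) := by ring
  rw [e1, h2, h3, h1']
  ring

theorem t_dg (u : ℝ) : TR.dg N.τ u = TR.dg (B.t - B.tc i0) (B.q i0 + u) := by
  have h1 : Typ (S := S) (fun k ω => (B.t - B.tc i0).1 k ω = S.dl (B.q i0) k * N.τ.1 k ω) :=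
    N.hτt.mono (Eventually.of_forall fun k ω _ h => h)
  exact typ_dg h1 u

theorem dg_iyT : TR.dg (D.iyT i2 N.e N.he) 1 = chgL (B.V i2) N.e N.he (TR.dg (D.iy i2) (B.q i2 + N.e)) := by
  have h1 := nf_dg (Z := B.V i2) (e := N.e) (he := N.he) (hr := B.q1 i2) (hf := D.iy_mem i2) 1
  rw [mul_one] at h1
  exact h1

theorem dg_irT : TR.dg (D.irT i2 N.e N.he) 1 = chgL (B.V i2) N.e N.he (TR.dg (D.ir i2) (B.lam i2 + N.e)) := by
  have h1 := nf_dg (Z := B.V i2) (e := N.e) (he := N.he) (hr := B.lam1 i2) (hf := D.ir_mem i2) 1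
  rw [mul_one] at h1
  exact h1

theorem dg_vrT : TR.dg (D.vrT i2 N.e N.he) 1 = chgL (B.V i2) N.e N.he (TR.dg (D.vr i2) (B.lam i2 - B.q i2 + N.e)) := by
  have h1 := nf_dg (Z := B.V i2) (e := N.e) (he := N.he) (hr := lq1 B i2) (hf := D.vr_mem i2) 1
  rw [mul_one] at h1
  exact h1

theorem dg_xT : TR.dg (D.xT i2 N.e N.he) 1 = chgL (B.V i2) N.e N.he (TR.dg (D.x 0) N.e) := by
  have h1 := trc_dg (B.V i2) N.e N.he (D.x 0) 1
  rw [mul_one] at h1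
  exact h1

/-- the direction -/
def X2 : S.L := TR.dg (D.x 0) N.e ⊔ TR.dg (D.vr i2) (B.lam i2 - B.q i2 + N.e)

/-- the base coordinates -/
def Y2 : S.L := TR.dg (B.y - B.yc i2) (B.q i2 + N.e) ⊔ TR.dg (B.Rr i2) (B.lam i2 + N.e)

theorem rX : (fc N.nd.cd.tr).iX = chgL (B.V i2) N.e N.he N.X2 := by
  have h1 : (fc N.nd.cd.tr).iX = TR.dg (D.xT i2 N.e N.he) 1 ⊔ TR.dg (D.vrT i2 N.e N.he) 1 :=
    vd_two' (U := B.Sj i2 N.e N.he) (f := (fc N.nd.cd.tr).x) rfl rfl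
  rw [h1, N.dg_xT, N.dg_vrT]
  exact (chgL_sup _ _ _ _ _).symm

theorem rA : QS.vd (fc N.nd.cd.tr).a 1 = chgL (B.V i2) N.e N.he (TR.dg (D.iy i2) (B.q i2 + N.e) ⊔
    TR.dg (D.ir i2) (B.lam i2 + N.e)) := by
  have h1 : QS.vd (fc N.nd.cd.tr).a 1 = TR.dg (D.iyT i2 N.e N.he) 1 ⊔ TR.dg (D.irT i2 N.e N.he) 1 :=
    vd_two' (U := B.Sj i2 N.e N.he) (f := (fc N.nd.cd.tr).a) rfl rfl
  rw [h1, N.dg_iyT, N.dg_irT]
  exact (chgL_sup _ _ _ _ _).symm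

theorem rL : (fc N.nd.cd.tr).iL = chgL (B.V i2) N.e N.he (lineI D i2 N.e) := by
  have h1 : QS.vd (fc N.nd.cd.tr).x 1 = chgL (B.V i2) N.e N.he N.X2 := N.rX
  unfold FC.iL
  rw [h1, N.rA, sup_comm]
  exact (chgL_sup _ _ _ _ _).symm

theorem rY : QS.vd (fc N.nd.cd.tr).y 1 = chgL (B.V i2) N.e N.he N.Y2 := by
  have e0 : (fc N.nd.cd.tr).y 0 = QS.mk (S := B.Sj i2 N.e N.he) (B.yT i2 N.e N.he) := by
    show QS.mk (S := B.Sj i2 N.e N.he) (D.iyT i2 N.e N.he) + QS.mk (S := B.Sj i2 N.e N.he) N.tN *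
      QS.mk (S := B.Sj i2 N.e N.he) (D.xT i2 N.e N.he) = _
    rw [N.t_eq, D.yT_eq]
  have e1 : (fc N.nd.cd.tr).y 1 = QS.mk (S := B.Sj i2 N.e N.he) (B.RT i2 N.e N.he) := by
    show QS.mk (S := B.Sj i2 N.e N.he) (D.irT i2 N.e N.he) + QS.mk (S := B.Sj i2 N.e N.he) N.tN *
      QS.mk (S := B.Sj i2 N.e N.he) (D.vrT i2 N.e N.he) = _
    rw [N.t_eq, D.RT_eq]
  have h1 : QS.vd (fc N.nd.cd.tr).y 1 = TR.dg (B.yT i2 N.e N.he) 1 ⊔ TR.dg (B.RT i2 N.e N.he) 1 :=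
    vd_two' (U := B.Sj i2 N.e N.he) (f := (fc N.nd.cd.tr).y) e0 e1
  have h2 := B.yT_dg (i0 := i2) (e := N.e) (he := N.he) 1
  have h3 := B.RT_dg (i0 := i2) (e := N.e) (he := N.he) 1
  rw [mul_one] at h2 h3
  rw [h1, h2, h3]
  exact (chgL_sup _ _ _ _ _).symm

section facts

variable {i1 i3 : ℕ} {b : ℝ} (nst : ∀ i j, B.q i ≤ B.q j → ∀ k, B.V j k ≤ B.V i k) (hd : B.Dn i0 b)
  (h01 : B.q i1 = B.q i0 + N.e) (h23 : B.q i3 = B.q i2 + N.e) (hb : B.q i3 ≤ b)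

theorem q02 (N : NDB D i0 i2 k) : B.q i0 ≤ B.q i2 := by
  rw [N.h02]
  linarith [mul_nonneg N.he.le N.hs]

theorem q2b (N : NDB D i0 i2 k) (h23 : B.q i3 = B.q i2 + N.e) (hb : B.q i3 ≤ b) : B.q i2 ≤ b := by linarith [N.he]

/-- the time of the corner over the label of the window `c'` -/
theorem T2_eq {e : ℝ} (he : 0 < e) : chgL (B.V i2) e he (T2 N.nd) =
    chgL (B.V i2) e he (TR.dg (B.t - B.tc i2) (B.q i2 + N.e)) := by
  have e1 : T2 N.nd = TR.dg (B.t - B.tc i0) (B.q i2 + N.e) := by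
    show TR.dg N.τ (N.e * (N.s + 1)) = _
    rw [N.t_dg, N.h02]
    congr 1
    ring
  rw [e1]
  apply le_antisymm
  · exact t_fine N.q02 he (le_refl _)
  · have h2 : B.t - B.tc i2 = (B.t - B.tc i0) + (B.tc i0 - B.tc i2) := ring_tc _ _ _
    have h3 : Kd (B.V i2) he (chgL (B.V i2) e he (TR.dg (B.t - B.tc i0) (B.q i2 + N.e))) (B.q i2 + N.e)
        (B.t - B.tc i2) := by
      rw [h2]
      exact Kd.add (le_refl _) (Kd.of_Lt ((tc_Lt N.q02).sub (B.lt i2)))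
    exact h3

theorem pt_eq {e : ℝ} (he : 0 < e) : chgL (B.V i2) e he (N.Y2 ⊔ T2 N.nd) = chgL (B.V i2) e he (ptI B i2 N.e) := by
  rw [chgL_sup, N.T2_eq he, ← chgL_sup, sup_comm]
  rfl

/-- leaks: what is in the line -/
theorem line_le (i : ℕ) {u : ℝ} (hu : B.q i + u ≤ 1) (hl : B.lam i + u ≤ 1) (D : LD B) :
    chgL (B.V i) 1 one_pos (lineI D i u) ≤ chgL (B.V i) 1 one_pos D.L := by
  have h1 := B.q0 i
  have h2 := B.qlam i
  unfold lineI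
  rw [chgL_sup, chgL_sup, chgL_sup]
  exact _root_.sup_le (_root_.sup_le (D.kw_x i 0 _ (by linarith)) (D.kw_vr i _ (by linarith)))
    (_root_.sup_le (D.kw_iy i _ hu) (D.kw_ir i _ hl))

theorem time_le (i : ℕ) {u : ℝ} (hu : B.q i + u ≤ 1) (D : LD B) :
    u ≤ h (chgL (B.V i) 1 one_pos (TR.dg (B.t - B.tc i) (B.q i + u))) (chgL (B.V i) 1 one_pos D.L) := by
  have h1 := D.real i
  rw [qc_dg, QS.dg_mk _ le_rfl] at h1
  have h2 : chgL (B.V i) 1 one_pos (TR.dg B.t 1) ≤ chgL (B.V i) 1 one_pos (TR.dg (B.t - B.tc i) 1) := by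
    have h3 : Kd (B.V i) one_pos (chgL (B.V i) 1 one_pos (TR.dg (B.t - B.tc i) 1)) 1 (B.t - B.tc i + B.tc i) :=
      Kd.add (le_refl _) (Kd.of_Lt (B.lt i))
    rw [← ring_R B.t (B.tc i)] at h3
    exact h3
  have h4 := time_of hu (h1.trans (h_mono h2)) le_rfl
  linarith

/-- robust upper bound of the deeper digits of the base point -/
theorem f1_up (i : ℕ) {e : ℝ} (he : 0 < e) {u : ℝ} (hu : B.q i + u ≤ 1) (hl : B.lam i + u ≤ 1) (T : Sp)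
    (p : Pj T (S.chg (B.V i) e he)) (E : ∀ k, (T.F k).Ω → Prop) (hE : 0 < ul (T.pr E)) :
    h (restL E hE (p.map (chgL (B.V i) e he (Mall B)))) (restL E hE (p.map (chgL (B.V i) e he (ptI B i u)))) ≤
      ((1 - (B.q i + u)) + (1 - (B.q i + u)) + (1 - (B.lam i + u))) / e :=
  pt_h_le B i (e := e) hu hl (fun x => restL E hE (p.map (chgL (B.V i) e he x)))
    (fun x y => by
      show restL E hE (p.map (chgL (B.V i) e he (x ⊔ y))) = _
      rw [chgL_sup, p.map_sup, restL_sup])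
    (fun x y h => restL_mono E hE (p.map_mono ((unit_le (B.V i) he).mpr h)))
    (fun g a b hab => ev_h_dg p E hE g hab)

include nst hd h01 h23 hb in
/-- **THE FACTS OF THE CORNER** from the facts of the box -/
theorem bk {ρ ε P : ℝ} (g0 : chgL (B.V i0) 1 one_pos (gd N.g (N.e * (N.σ + N.v))) ≤ chgL (B.V i0) 1 one_pos D.L)
    (z1 : chgL (B.V i1) 1 one_pos (TR.dg N.ζ (N.e * (N.σ + N.v))) = ⊥)
    (hu : h (chgL (B.V i2) 1 one_pos (TR.dg N.ζ (N.e * N.σ))) (chgL (B.V i2) 1 one_pos (Mall B)) ≤ ε * N.e)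
    (r1 : H (chgL (B.V i2) 1 one_pos N.X2) - H (chgL (B.V i3) 1 one_pos N.X2) ≤ ε * N.e)
    (sp1 : B.lam i1 ≤ B.lam i0 + N.e + ε * N.e) (sp3 : B.lam i3 ≤ B.lam i2 + N.e + ε * N.e)
    (un : ∀ (T : Sp) (p : Pj T (S.chg (B.V i0) N.e N.he)) (E : ∀ k, (T.F k).Ω → Prop) (hE : 0 < ul (T.pr E)),
      P ≤ ul (T.pr E) → ∀ a b : ℝ, 0 ≤ a → a ≤ b → b ≤ N.σ + N.v →
      h (restL E hE (p.map (chgL (B.V i0) N.e N.he (TR.dg N.ζ (N.e * b)))))
        (restL E hE (p.map (chgL (B.V i0) N.e N.he (TR.dg N.ζ (N.e * a) ⊔ Mall B)))) ≤ (1 - ρ) * (b - a) + ε) :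
    Bk N.nd (B.V i1) (B.V i3) (lineI D i0 N.e) (ptI B i0 N.e) (Mall B) (lineI D i2 N.e) N.X2 N.Y2 D.L ρ ε P := by
  have he := N.he
  have hq02 := N.q02
  have q01 : B.q i0 ≤ B.q i1 := by linarith
  have q23 : B.q i2 ≤ B.q i3 := by linarith
  have q2b := N.q2b h23 hb
  have hes := mul_nonneg he.le N.hs
  have q13 : B.q i1 ≤ B.q i3 := by rw [h23, N.h02]; linarith
  have q1b : B.q i1 ≤ b := q13.trans hb
  have hd2 : B.Dn i2 b := fun a a' h1 h2 h3 => hd a a' (hq02.trans h1) h2 h3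
  have s01 := B.slam i0 i1 q01
  have s23 := B.slam i2 i3 q23
  have l1 := B.lam1 i1
  have l3 := B.lam1 i3
  have a1 := B.q1 i1
  have a3 := B.q1 i3
  have u0 : B.q i0 + N.e ≤ 1 := by linarith
  have u2 : B.q i2 + N.e ≤ 1 := by linarith
  have v0 : B.lam i0 + N.e ≤ 1 := by linarith
  have v2 : B.lam i2 + N.e ≤ 1 := by linarith
  have fin : ∀ i j, B.q i ≤ B.q j → Fin2 (B.V i) (B.V j) := fun i j h k ω ω' _ _ _ h' => nst i j h k h'
  exact {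
    h1 := fin i0 i1 q01
    h3 := fin i2 i3 q23
    rL := N.rL
    rX := N.rX
    rY := N.rY
    hL := lineI_fine hd hq02 q2b one_pos D N.e
    hM := by
      show chgL (B.V i2) 1 one_pos (ptI B i0 N.e) ≤ chgL (B.V i2) 1 one_pos (N.Y2 ⊔ T2 N.nd)
      rw [N.pt_eq one_pos]
      exact ptI_fine hd hq02 q2b one_pos N.e
    hLM := by
      show chgL (B.V i0) 1 one_pos (ptI B i0 N.e) ≤ chgL (B.V i0) 1 one_pos (lineI D i0 N.e ⊔ TR.dg N.τ N.e)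
      rw [N.t_dg]
      exact chgL_mono _ _ _ (ptI_line D i0 N.e)
    hM0 := ptI_le_all B i0 one_pos u0 v0
    l0 := line_le i0 u0 v0 D
    l2 := line_le i2 u2 v2 D
    g0 := g0
    g2 := nest_le N.hZ one_pos g0
    t0 := by
      show N.e ≤ h (chgL (B.V i0) 1 one_pos (TR.dg N.τ N.e)) (chgL (B.V i0) 1 one_pos D.L)
      rw [N.t_dg]
      exact time_le i0 u0 D
    t2 := by
      show N.e ≤ h (chgL (B.V i2) 1 one_pos (T2 N.nd)) (chgL (B.V i2) 1 one_pos D.L)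
      rw [N.T2_eq one_pos]
      exact time_le i2 u2 D
    y2 := by
      show ((2 : ℕ) : ℝ) * N.e ≤ h (chgL (B.V i2) 1 one_pos N.Y2) (chgL (B.V i2) 1 one_pos (T2 N.nd))
      rw [N.T2_eq one_pos]
      have h1 := full_of B i2 u2 v2 he.le
      push_cast
      exact h1
    f3 := by
      show h (chgL (B.V i2) 1 one_pos (Mall B)) (chgL (B.V i2) 1 one_pos (N.Y2 ⊔ T2 N.nd)) - ε * N.e ≤
        H (chgL (B.V i3) 1 one_pos (Mall B))
      rw [N.pt_eq one_pos]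
      have h1 := pt_h_chg B i2 u2 v2
      have h2 := Mall_H B i3
      rw [h23] at h2
      linarith
    k3 := by
      show chgL (B.V i3) 1 one_pos (N.Y2 ⊔ T2 N.nd) = ⊥
      have h1 := nest_le (fin i2 i3 q23) one_pos (N.pt_eq one_pos).le
      rw [ptI_bot B hd2 he.le h23.symm.le hb one_pos] at h1
      exact le_bot_iff.mp h1
    z3 := by
      have h1 := nest_le (fin i1 i3 q13) one_pos (x := TR.dg N.ζ (N.e * (N.σ + N.v))) (y := ⊥)
        (by rw [z1, chgL_bot])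
      rw [chgL_bot] at h1
      exact le_bot_iff.mp h1
    hu := hu
    r1 := r1
    f1 := by
      refine ⟨(1 - (B.q i0 + N.e)) + (1 - (B.q i0 + N.e)) + (1 - (B.lam i0 + N.e)), fun T p E hE => ?_, ?_⟩
      · exact f1_up i0 N.he u0 v0 T p E hE
      · have h2 := Mall_H B i1
        rw [h01] at h2
        show _ - ε * N.e ≤ H (chgL (B.V i1) 1 one_pos (Mall B))
        linarith
    k1 := ptI_bot B hd he.le h01.symm.le q1b one_pos
    z1 := z1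
    un := un }

end facts

end NDB

end

end Pool.Agent.Helper47.CA
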