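import Pool.Agent.Helper47.CA.Dig

/-!
# The base line and the base point in nested boxes

`lineI D i u`, `ptI B i u`: digits of relative depth `u` of the base line `(x, v_R, a_y, a_R)` and of the base point
`(t, y, R)` in the box of the window `i`. Over the label of a finer window `i` the digits in the coarse box are functions
of the digits in the fine box.
-/

set_option autoImplicit false

namespace Pool.Agent.Helper47.CA

open Finset Filter Topology Pool.Agent.Helper69.RK Pool.Agent.Helper31.EC Pool.Agent.Helper31.EC.Sp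
open Pool.Agent.Helper60.CS Pool.Agent.Helper98.FR Pool.Agent.Helper47.T4

noncomputable section

theorem ring_iy {A : Type*} [CommRing A] (a0 x0 tc0 tc yc0 yc : A) :
    a0 + tc0 * x0 - yc0 = (a0 + tc * x0 - yc) + ((tc0 - tc) * x0 + (yc - yc0)) := by ring

theorem ring_vr {A : Type*} [CommRing A] (x1 x0 r1 r2 s1 s2 : A) :
    x1 - (r1 + r2 * x0) = (x1 - (s1 + s2 * x0)) + ((s1 - r1) + (s2 - r2) * x0) := by ring

theorem ring_ir {A : Type*} [CommRing A] (a1 x1 a0 x0 tc0 tc yc0 r0 r1 r2 s0 s1 s2 : A) :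
    a1 + tc0 * x1 - (r0 + r1 * tc0 + r2 * (a0 + tc0 * x0)) =
      (a1 + tc * x1 - (s0 + s1 * tc + s2 * (a0 + tc * x0))) + ((x1 - (s1 + s2 * x0)) * (tc0 - tc) +
        ((s0 - r0) + (s1 - r1) * tc0 + (s2 - r2) * yc0 + (s2 - r2) * (a0 + tc0 * x0 - yc0))) := by ring

theorem ring_tc {A : Type*} [CommRing A] (t t0 t1 : A) : t - t0 = (t - t1) + (t1 - t0) := by ring

variable {S : Sp} {B : BD S}

/-- digits of the base point in the box of the window `i` -/
def ptI (B : BD S) (i : ℕ) (u : ℝ) : S.L :=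
  TR.dg (B.t - B.tc i) (B.q i + u) ⊔ (TR.dg (B.y - B.yc i) (B.q i + u) ⊔ TR.dg (B.Rr i) (B.lam i + u))

/-- digits of the base line in the box of the window `i` -/
def lineI (D : LD B) (i : ℕ) (u : ℝ) : S.L :=
  (TR.dg (D.x 0) u ⊔ TR.dg (D.vr i) (B.lam i - B.q i + u)) ⊔
    (TR.dg (D.iy i) (B.q i + u) ⊔ TR.dg (D.ir i) (B.lam i + u))

theorem lq1 (B : BD S) (i : ℕ) : B.lam i - B.q i ≤ 1 := by
  have := B.lam1 i
  have := B.q0 i
  linarith

theorem lq0 (B : BD S) (i : ℕ) : 0 ≤ B.lam i - B.q i := by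
  have := B.qlam i
  linarith

section fine

variable {i0 i : ℕ} {b : ℝ} (hd : B.Dn i0 b) (h : B.q i0 ≤ B.q i) (hb : B.q i ≤ b) {e : ℝ} (he : 0 < e)

include h in
theorem tc_Lt : Lt (B.V i) (B.tc i0) := (B.lt i0).mono (B.nest i0 i h)

include h in
theorem yc_Lt : Lt (B.V i) (B.yc i0) := (B.ly i0).mono (B.nest i0 i h)

include hd h hb in
theorem slab_mem (a : Fin 3) (ha : a ≠ 0) : QS.mk (B.r i a - B.r i0 a) ∈ QS.Id S (B.lam i0 - B.q i0) := by
  rw [map_sub]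
  exact B.slab hd h hb a ha

include h in
theorem r_Lt (a : Fin 3) : Lt (B.V i) (B.r i a - B.r i0 a) := (B.lr i a).sub ((B.lr i0 a).mono (B.nest i0 i h))

include h in
theorem tc_mem' : QS.mk (B.tc i0 - B.tc i) ∈ QS.Id S (B.q i0) := by
  have h1 := (QS.Id S _).neg_mem (B.tc_mem i0 h)
  rw [← map_neg, neg_sub] at h1
  exact h1

include h in
/-- the time in the coarse box -/
theorem t_fine {A : (S.chg (B.V i) e he).L} {r : ℝ} (hA : Kd (B.V i) he A r (B.t - B.tc i)) :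
    Kd (B.V i) he A r (B.t - B.tc i0) := by
  rw [ring_tc B.t (B.tc i0) (B.tc i)]
  exact hA.add (Kd.of_Lt ((B.lt i).sub (tc_Lt h)))

include h in
theorem y_fine {A : (S.chg (B.V i) e he).L} {r : ℝ} (hA : Kd (B.V i) he A r (B.y - B.yc i)) :
    Kd (B.V i) he A r (B.y - B.yc i0) := by
  rw [ring_tc B.y (B.yc i0) (B.yc i)]
  exact hA.add (Kd.of_Lt ((B.ly i).sub (yc_Lt h)))

include hd h hb in
theorem R_fine {A : (S.chg (B.V i) e he).L} {u : ℝ} (hR : Kd (B.V i) he A (B.lam i0 + u) (B.Rr i))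
    (ht : Kd (B.V i) he A (B.q i0 + u) (B.t - B.tc i0)) (hy : Kd (B.V i) he A (B.q i0 + u) (B.y - B.yc i0)) :
    Kd (B.V i) he A (B.lam i0 + u) (B.Rr i0) := by
  rw [B.Rr_eq i0 i]
  have e1 : B.lam i0 + u = B.lam i0 - B.q i0 + B.q i0 + u := by ring
  refine hR.add (((Kd.of_Lt (B.ρ_lt i0 i h 0)).add ?_).add ?_)
  · refine Kd.mul' (lq1 B i0) (B.q1 i0) ?_ (B.T_mem i0) (Kd.of_Lt (B.ρ_lt i0 i h 1)) ht e1
    rw [B.ρ1]
    exact slab_mem hd h hb 1 (by decide)
  · refine Kd.mul' (lq1 B i0) (B.q1 i0) ?_ (B.Y_mem i0) (Kd.of_Lt (B.ρ_lt i0 i h 2)) hy e1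
    rw [B.ρ2]
    exact slab_mem hd h hb 2 (by decide)

include hd h hb in
/-- THE BASE POINT in the coarse box -/
theorem ptI_fine (u : ℝ) : chgL (B.V i) e he (ptI B i0 u) ≤ chgL (B.V i) e he (ptI B i u) := by
  have hl := B.lmono h
  have ht : Kd (B.V i) he (chgL (B.V i) e he (ptI B i u)) (B.q i0 + u) (B.t - B.tc i0) :=
    t_fine h he (Kd.mono (show B.q i0 + u ≤ B.q i + u by linarith) (chgL_mono _ _ _ le_sup_left))
  have hy : Kd (B.V i) he (chgL (B.V i) e he (ptI B i u)) (B.q i0 + u) (B.y - B.yc i0) :=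
    y_fine h he (Kd.mono (show B.q i0 + u ≤ B.q i + u by linarith)
      (chgL_mono _ _ _ (le_sup_left.trans le_sup_right)))
  have hR : Kd (B.V i) he (chgL (B.V i) e he (ptI B i u)) (B.lam i0 + u) (B.Rr i0) :=
    R_fine hd h hb he (Kd.mono (show B.lam i0 + u ≤ B.lam i + u by linarith)
      (chgL_mono _ _ _ (le_sup_right.trans le_sup_right))) ht hy
  show chgL (B.V i) e he (TR.dg (B.t - B.tc i0) (B.q i0 + u) ⊔ (TR.dg (B.y - B.yc i0) (B.q i0 + u) ⊔
    TR.dg (B.Rr i0) (B.lam i0 + u))) ≤ _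
  rw [chgL_sup, chgL_sup]
  exact _root_.sup_le ht (_root_.sup_le hy hR)

include hd h hb in
/-- THE BASE LINE in the coarse box -/
theorem lineI_fine (D : LD B) (u : ℝ) : chgL (B.V i) e he (lineI D i0 u) ≤ chgL (B.V i) e he (lineI D i u) := by
  have hl := B.lmono h
  have hs := B.slam i0 i h
  obtain ⟨A, hA⟩ : ∃ A, A = chgL (B.V i) e he (lineI D i u) := ⟨_, rfl⟩
  have fx : Kd (B.V i) he A (0 + u) (D.x 0) := by
    rw [hA, zero_add]
    exact chgL_mono _ _ _ (le_sup_left.trans le_sup_left)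
  have fv : Kd (B.V i) he A (B.lam i0 - B.q i0 + u) (D.vr i) := by
    rw [hA]
    exact Kd.mono (show B.lam i0 - B.q i0 + u ≤ B.lam i - B.q i + u by linarith)
      (chgL_mono _ _ _ (le_sup_right.trans le_sup_left))
  have fy : Kd (B.V i) he A (B.q i0 + u) (D.iy i) := by
    rw [hA]
    exact Kd.mono (show B.q i0 + u ≤ B.q i + u by linarith)
      (chgL_mono _ _ _ (le_sup_left.trans le_sup_right))
  have fr : Kd (B.V i) he A (B.lam i0 + u) (D.ir i) := by
    rw [hA]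
    exact Kd.mono (show B.lam i0 + u ≤ B.lam i + u by linarith)
      (chgL_mono _ _ _ (le_sup_right.trans le_sup_right))
  have gy : Kd (B.V i) he A (B.q i0 + u) (D.iy i0) := by
    have e1 : D.iy i0 = D.iy i + ((B.tc i0 - B.tc i) * D.x 0 + (B.yc i - B.yc i0)) := ring_iy _ _ _ _ _ _
    rw [e1]
    refine fy.add (Kd.add ?_ (Kd.of_Lt ((B.ly i).sub (yc_Lt h))))
    exact Kd.mul' (B.q1 i0) zero_le_one (tc_mem' h) (mem_Id_zero _) (Kd.of_Lt ((tc_Lt h).sub (B.lt i))) fx (by ring)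
  have gv : Kd (B.V i) he A (B.lam i0 - B.q i0 + u) (D.vr i0) := by
    have e1 : D.vr i0 = D.vr i + ((B.r i 1 - B.r i0 1) + (B.r i 2 - B.r i0 2) * D.x 0) := ring_vr _ _ _ _ _ _
    rw [e1]
    refine fv.add (Kd.add (Kd.of_Lt (r_Lt h 1)) ?_)
    exact Kd.mul' (lq1 B i0) zero_le_one (slab_mem hd h hb 2 (by decide)) (mem_Id_zero _) (Kd.of_Lt (r_Lt h 2)) fx
      (by ring)
  have gr : Kd (B.V i) he A (B.lam i0 + u) (D.ir i0) := by
    have e1 : D.ir i0 = D.ir i + (D.vr i * (B.tc i0 - B.tc i) + ((B.r i 0 - B.r i0 0) + (B.r i 1 - B.r i0 1) * B.tc i0 +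
      (B.r i 2 - B.r i0 2) * B.yc i0 + (B.r i 2 - B.r i0 2) * D.iy i0)) := ring_ir _ _ _ _ _ _ _ _ _ _ _ _ _
    rw [e1]
    refine fr.add (Kd.add ?_ (Kd.add (Kd.of_Lt ?_) ?_))
    · exact Kd.mul' (lq1 B i0) (B.q1 i0) (QS.Id_anti hs (D.vr_mem i)) (tc_mem' h) fv
        (Kd.of_Lt ((tc_Lt h).sub (B.lt i))) (by ring)
    · exact ((r_Lt h 0).add ((r_Lt h 1).mul (tc_Lt h))).add ((r_Lt h 2).mul (yc_Lt h))
    · exact Kd.mul' (lq1 B i0) (B.q1 i0) (slab_mem hd h hb 2 (by decide)) (D.iy_mem i0) (Kd.of_Lt (r_Lt h 2)) gy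
        (by ring)
  rw [← hA]
  show chgL (B.V i) e he ((TR.dg (D.x 0) u ⊔ TR.dg (D.vr i0) (B.lam i0 - B.q i0 + u)) ⊔
    (TR.dg (D.iy i0) (B.q i0 + u) ⊔ TR.dg (D.ir i0) (B.lam i0 + u))) ≤ _
  rw [chgL_sup, chgL_sup, chgL_sup]
  rw [zero_add] at fx
  exact _root_.sup_le (_root_.sup_le fx gv) (_root_.sup_le gy gr)

end fine

/-- the base point is a function of the base line and the time -/
theorem ptI_line (D : LD B) (i : ℕ) (u : ℝ) : ptI B i u ≤ lineI D i u ⊔ TR.dg (B.t - B.tc i) (B.q i + u) := by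
  have hy : TR.dg (B.y - B.yc i) (B.q i + u) ≤ lineI D i u ⊔ TR.dg (B.t - B.tc i) (B.q i + u) := by
    rw [D.y_eq i]
    refine (TR.add_dg_le _ _ _).trans (_root_.sup_le ?_ ?_)
    · exact (le_sup_left.trans le_sup_right).trans le_sup_left
    · have h1 := mul_dg_Id zero_le_one (B.q1 i) (mem_Id_zero (D.x 0)) (B.T_mem i) u
      rw [zero_add, zero_add] at h1
      refine h1.trans (sup_le_sup_right (le_sup_left.trans le_sup_left) _)
  have hR : TR.dg (B.Rr i) (B.lam i + u) ≤ lineI D i u ⊔ TR.dg (B.t - B.tc i) (B.q i + u) := by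
    rw [D.Rr_eq i]
    refine (TR.add_dg_le _ _ _).trans (_root_.sup_le ?_ ?_)
    · exact (le_sup_right.trans le_sup_right).trans le_sup_left
    · have h1 := mul_dg_Id (lq1 B i) (B.q1 i) (D.vr_mem i) (B.T_mem i) u
      rw [sub_add_cancel] at h1
      refine h1.trans (sup_le_sup_right (le_sup_right.trans le_sup_left) _)
  exact _root_.sup_le le_sup_right (_root_.sup_le hy hR)

end

end Pool.Agent.Helper47.CA
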