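import Pool.Agent.Helper98.FR.Vel
import Pool.Agent.Helper47.T4.Und

/-!
# Digits over a partition

`Kd Z e A r f`: the digits of level `r` of `f` are known to `A` over the partition `Z` (depth `e n`); products of small
functions need fewer digits of the factors. `nS f r`: the function `2 ^ (r n) f` on the space itself.
-/

set_option autoImplicit false

namespace Pool.Agent.Helper47.CA

open Finset Filter Topology Pool.Agent.Helper69.RK Pool.Agent.Helper31.EC Pool.Agent.Helper31.EC.Sp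
open Pool.Agent.Helper60.CS Pool.Agent.Helper98.FR Pool.Agent.Helper47.T4

noncomputable section

variable {S : Sp}

theorem mem_Id_zero (f : TR S) : QS.mk f ∈ QS.Id S 0 := by
  rw [QS.mk_mem_Id zero_le_one]
  obtain ⟨K, hK, h⟩ := f.2
  refine ⟨fun _ _ => True, K, Typ_true, hK, ?_⟩
  filter_upwards [h] with k hk ω a _
  rw [TR.ev_zero, sub_zero, dl_zero, mul_one]
  exact hk ω a

/-- digits of a product of small functions -/
theorem mul_dg_Id {f g : TR S} {a b : ℝ} (ha : a ≤ 1) (hb : b ≤ 1) (hf : QS.mk f ∈ QS.Id S a)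
    (hg : QS.mk g ∈ QS.Id S b) (u : ℝ) : TR.dg (f * g) (a + b + u) ≤ TR.dg f (a + u) ⊔ TR.dg g (b + u) := by
  obtain ⟨K, hK, h1⟩ := exists_K ha hf
  obtain ⟨L, hL, h2⟩ := exists_K hb hg
  apply VV.dg_le_dg2 _ _ _ _ _ _ _ (h1.and h2) _ (hK.add hL)
  refine Eventually.of_forall fun k ω ω' _ _ e1 e2 _ g1 g2 i => ?_
  have a1 : |f.1 k ω| ≤ K k * S.dl a k := by
    have := e1.1
    rwa [sub_zero] at this
  have a2 : |g.1 k ω'| ≤ L k * S.dl b k := by
    have := e2.2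
    rwa [sub_zero] at this
  have b1 : |f.1 k ω - f.1 k ω'| ≤ S.dl (a + u) k := g1 0
  have b2 : |g.1 k ω - g.1 k ω'| ≤ S.dl (b + u) k := g2 0
  have h3 := mul_diff _ _ _ _ _ _ _ _ a1 a2 b1 b2
  show |f.1 k ω * g.1 k ω - f.1 k ω' * g.1 k ω'| ≤ (K k + L k) * S.dl (a + b + u) k
  refine h3.trans (le_of_eq ?_)
  have c1 : S.dl (a + b + u) k = S.dl a k * S.dl (b + u) k := by
    rw [← dl_add]; congr 1; ring
  have c2 : S.dl (a + b + u) k = S.dl b k * S.dl (a + u) k := by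
    rw [← dl_add]; congr 1; ring
  rw [add_mul]
  nth_rewrite 1 [c1]
  rw [c2]
  ring

/-! ### knowledge of digits over a partition -/

/-- the digits of level `r` of `f` are known to `A` over `Z` -/
def Kd (Z : ∀ k, Setoid (S.F k).Ω) {e : ℝ} (he : 0 < e) (A : (S.chg Z e he).L) (r : ℝ) (f : TR S) : Prop :=
  chgL Z e he (TR.dg f r) ≤ A

namespace Kd

variable {Z : ∀ k, Setoid (S.F k).Ω} {e : ℝ} {he : 0 < e} {A : (S.chg Z e he).L} {r : ℝ} {f g : TR S}

theorem add (hf : Kd Z he A r f) (hg : Kd Z he A r g) : Kd Z he A r (f + g) :=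
  (chgL_mono _ _ _ (TR.add_dg_le f g r)).trans (by rw [chgL_sup]; exact _root_.sup_le hf hg)

theorem neg (hf : Kd Z he A r f) : Kd Z he A r (-f) := (chgL_mono _ _ _ (TR.neg_dg_le f r)).trans hf

theorem sub (hf : Kd Z he A r f) (hg : Kd Z he A r g) : Kd Z he A r (f - g) := by
  rw [sub_eq_add_neg]
  exact hf.add hg.neg

theorem of_Lt (hf : Lt Z f) : Kd Z he A r f := by
  unfold Kd
  rw [hf.chg_bot e he r]
  exact bot_le

theorem mono {r' : ℝ} (h : r ≤ r') (hf : Kd Z he A r' f) : Kd Z he A r f :=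
  (chgL_mono _ _ _ (TR.dg_mono f h)).trans hf

theorem le {B : (S.chg Z e he).L} (hf : Kd Z he A r f) (h : A ≤ B) : Kd Z he B r f := le_trans hf h

/-- products of small functions -/
theorem mul {a b u : ℝ} (ha : a ≤ 1) (hb : b ≤ 1) (ma : QS.mk f ∈ QS.Id S a) (mb : QS.mk g ∈ QS.Id S b)
    (hf : Kd Z he A (a + u) f) (hg : Kd Z he A (b + u) g) : Kd Z he A (a + b + u) (f * g) :=
  (chgL_mono _ _ _ (mul_dg_Id ha hb ma mb u)).trans (by rw [chgL_sup]; exact _root_.sup_le hf hg)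

theorem mul' {a b u : ℝ} (ha : a ≤ 1) (hb : b ≤ 1) (ma : QS.mk f ∈ QS.Id S a) (mb : QS.mk g ∈ QS.Id S b)
    (hf : Kd Z he A (a + u) f) (hg : Kd Z he A (b + u) g) (hr : r = a + b + u) : Kd Z he A r (f * g) := by
  rw [hr]
  exact mul ha hb ma mb hf hg

end Kd

/-! ### units -/

section unit

variable (Z : ∀ k, Setoid (S.F k).Ω) {e : ℝ} (he : 0 < e)

/-- change of the unit -/
theorem h_unit (x y : S.L) : h (chgL Z e he x) (chgL Z e he y) = h (chgL Z 1 one_pos x) (chgL Z 1 one_pos y) / e := by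
  induction x using Sp.cl_ind with | h A
  induction y using Sp.cl_ind with | h B
  rw [chgL_cl, chgL_cl, chgL_cl, chgL_cl, h_cl, h_cl, div_eq_inv_mul, ← ul_const_mul _ (UB_rt _ _)]
  congr 1
  funext k
  have h1 : (S.chg Z e he).rt (chgI Z e he A).1 (chgI Z e he B).1 k = S.rt A.1 (fun k => B.1 k ⊓ Z k) k / e :=
    chg_rt Z e he A.1 B.1 k
  have h2 : (S.chg Z 1 one_pos).rt (chgI Z 1 one_pos A).1 (chgI Z 1 one_pos B).1 k =
      S.rt A.1 (fun k => B.1 k ⊓ Z k) k / 1 := chg_rt Z 1 one_pos A.1 B.1 k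
  rw [h1, h2, div_one, ← div_eq_inv_mul]

theorem H_unit (x : S.L) : H (chgL Z e he x) = H (chgL Z 1 one_pos x) / e := by
  have h1 := h_unit Z he x ⊥
  rw [chgL_bot, chgL_bot, h_bot, h_bot] at h1
  exact h1

theorem unit_le {x y : S.L} : chgL Z e he x ≤ chgL Z e he y ↔ chgL Z 1 one_pos x ≤ chgL Z 1 one_pos y := by
  rw [← h_eq_zero_iff, ← h_eq_zero_iff, h_unit Z he, div_eq_zero_iff, or_iff_left he.ne']

theorem unit_bot {x : S.L} : chgL Z e he x = ⊥ ↔ chgL Z 1 one_pos x = ⊥ := by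
  have h1 := unit_le Z he (x := x) (y := ⊥)
  rw [chgL_bot, chgL_bot, le_bot_iff, le_bot_iff] at h1
  exact h1

end unit

/-! ### rescaled functions on the space itself -/

/-- the function `2 ^ (r n) f` -/
def nS (f : TR S) (r : ℝ) (hr : r ≤ 1) (hf : QS.mk f ∈ QS.Id S r) : TR S :=
  ⟨(nf (fun k => (⊤ : Setoid (S.F k).Ω)) 1 one_pos f r hr hf).1, by
    obtain ⟨K, hK, h⟩ := (nf (fun k => (⊤ : Setoid (S.F k).Ω)) 1 one_pos f r hr hf).2
    exact ⟨K, sub_of_chg _ hK, h⟩⟩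

variable {f : TR S} {r : ℝ} {hr : r ≤ 1} {hf : QS.mk f ∈ QS.Id S r}

theorem nS_trc (Z : ∀ k, Setoid (S.F k).Ω) (e : ℝ) (he : 0 < e) :
    trc Z e he (nS f r hr hf) = nf Z e he f r hr hf := rfl

theorem nS_typ : Typ (S := S) (fun k ω => f.1 k ω = S.dl r k * (nS f r hr hf).1 k ω) :=
  nf_typ (Z := fun k => (⊤ : Setoid (S.F k).Ω)) (e := 1) (he := one_pos) (hr := hr) (hf := hf)

theorem nS_dg (u : ℝ) : TR.dg (nS f r hr hf) u = TR.dg f (r + u) := by
  apply le_antisymm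
  · apply VV.dg_le_dg _ _ _ _ _ (nS_typ (hr := hr) (hf := hf)) (fun _ => 1) (S.Sub_const zero_le_one)
    refine Eventually.of_forall fun k ω ω' _ _ e1 e2 _ g i => ?_
    have g1 : |f.1 k ω - f.1 k ω'| ≤ S.dl (r + u) k := g 0
    show |(nS f r hr hf).1 k ω - (nS f r hr hf).1 k ω'| ≤ 1 * S.dl u k
    rw [e1, e2, ← mul_sub, abs_mul, abs_of_pos (S.dl_pos r k), dl_add] at g1
    rw [one_mul]
    exact le_of_mul_le_mul_left g1 (S.dl_pos r k)
  · apply VV.dg_le_dg _ _ _ _ _ (nS_typ (hr := hr) (hf := hf)) (fun _ => 1) (S.Sub_const zero_le_one)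
    refine Eventually.of_forall fun k ω ω' _ _ e1 e2 _ g i => ?_
    have g1 : |(nS f r hr hf).1 k ω - (nS f r hr hf).1 k ω'| ≤ S.dl u k := g 0
    show |f.1 k ω - f.1 k ω'| ≤ 1 * S.dl (r + u) k
    rw [e1, e2, ← mul_sub, abs_mul, abs_of_pos (S.dl_pos r k), dl_add, one_mul]
    exact mul_le_mul_of_nonneg_left g1 (S.dl_pos r k).le

end

end Pool.Agent.Helper47.CA
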