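import Pool.Agent.Helper47.CA.Box
import Pool.Agent.Helper47.CA.Ent

/-!
# Fullness of the base point in nested boxes
-/

set_option autoImplicit false

namespace Pool.Agent.Helper47.CA

open Finset Filter Topology Pool.Agent.Helper69.RK Pool.Agent.Helper31.EC Pool.Agent.Helper31.EC.Sp
open Pool.Agent.Helper60.CS Pool.Agent.Helper98.FR Pool.Agent.Helper47.T4

noncomputable section

theorem ring_R {A : Type*} [CommRing A] (R c : A) : R = (R - c) + c := by ring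

variable {S : Sp} (B : BD S) (i : ℕ)

/-- all digits of the base point -/
def Mall : S.L := TR.dg B.t 1 ⊔ (TR.dg B.y 1 ⊔ TR.dg B.R 1)

/-- all digits of the residuals in the box -/
def Mres : S.L := TR.dg (B.t - B.tc i) 1 ⊔ (TR.dg (B.y - B.yc i) 1 ⊔ TR.dg (B.Rr i) 1)

theorem Mall_H : (1 - B.q i) + (1 - B.q i) + (1 - B.lam i) ≤ H (chgL (B.V i) 1 one_pos (Mall B)) := by
  have h1 := B.full i
  rw [qc_dg, qc_dg, qc_dg, QS.dg_mk _ le_rfl, QS.dg_mk _ le_rfl, QS.dg_mk _ le_rfl, ← chgL_sup, ← chgL_sup,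
    sup_assoc] at h1
  exact h1

section le

variable {e : ℝ} (he : 0 < e)

theorem Mall_le_res : chgL (B.V i) e he (Mall B) ≤ chgL (B.V i) e he (Mres B i) := by
  have ht : Kd (B.V i) he (chgL (B.V i) e he (Mres B i)) 1 B.t := by
    rw [ring_R B.t (B.tc i)]
    exact Kd.add (chgL_mono _ _ _ le_sup_left) (Kd.of_Lt (B.lt i))
  have hy : Kd (B.V i) he (chgL (B.V i) e he (Mres B i)) 1 B.y := by
    rw [ring_R B.y (B.yc i)]
    exact Kd.add (chgL_mono _ _ _ (le_sup_left.trans le_sup_right)) (Kd.of_Lt (B.ly i))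
  have hR : Kd (B.V i) he (chgL (B.V i) e he (Mres B i)) 1 B.R := by
    rw [ring_R B.R (B.r i 0 + B.r i 1 * B.t + B.r i 2 * B.y)]
    refine Kd.add (chgL_mono _ _ _ (le_sup_right.trans le_sup_right)) (Kd.add (Kd.add (Kd.of_Lt (B.lr i 0)) ?_) ?_)
    · exact Kd.mul' (a := 0) (b := 0) (u := 1) zero_le_one zero_le_one (mem_Id_zero _) (mem_Id_zero _)
        (Kd.of_Lt (B.lr i 1)) (by rw [zero_add]; exact ht) (by ring)
    · exact Kd.mul' (a := 0) (b := 0) (u := 1) zero_le_one zero_le_one (mem_Id_zero _) (mem_Id_zero _)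
        (Kd.of_Lt (B.lr i 2)) (by rw [zero_add]; exact hy) (by ring)
  show chgL (B.V i) e he (TR.dg B.t 1 ⊔ (TR.dg B.y 1 ⊔ TR.dg B.R 1)) ≤ _
  rw [chgL_sup, chgL_sup]
  exact _root_.sup_le ht (_root_.sup_le hy hR)

theorem Mres_le_all : chgL (B.V i) e he (Mres B i) ≤ chgL (B.V i) e he (Mall B) := by
  have ht : Kd (B.V i) he (chgL (B.V i) e he (Mall B)) 1 B.t := chgL_mono _ _ _ le_sup_left
  have hy : Kd (B.V i) he (chgL (B.V i) e he (Mall B)) 1 B.y := chgL_mono _ _ _ (le_sup_left.trans le_sup_right)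
  have hR : Kd (B.V i) he (chgL (B.V i) e he (Mall B)) 1 B.R := chgL_mono _ _ _ (le_sup_right.trans le_sup_right)
  have gt : Kd (B.V i) he (chgL (B.V i) e he (Mall B)) 1 (B.t - B.tc i) := ht.sub (Kd.of_Lt (B.lt i))
  have gy : Kd (B.V i) he (chgL (B.V i) e he (Mall B)) 1 (B.y - B.yc i) := hy.sub (Kd.of_Lt (B.ly i))
  have gR : Kd (B.V i) he (chgL (B.V i) e he (Mall B)) 1 (B.Rr i) := by
    refine hR.sub (Kd.add (Kd.add (Kd.of_Lt (B.lr i 0)) ?_) ?_)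
    · exact Kd.mul' (a := 0) (b := 0) (u := 1) zero_le_one zero_le_one (mem_Id_zero _) (mem_Id_zero _)
        (Kd.of_Lt (B.lr i 1)) (by rw [zero_add]; exact ht) (by ring)
    · exact Kd.mul' (a := 0) (b := 0) (u := 1) zero_le_one zero_le_one (mem_Id_zero _) (mem_Id_zero _)
        (Kd.of_Lt (B.lr i 2)) (by rw [zero_add]; exact hy) (by ring)
  show chgL (B.V i) e he (TR.dg (B.t - B.tc i) 1 ⊔ (TR.dg (B.y - B.yc i) 1 ⊔ TR.dg (B.Rr i) 1)) ≤ _
  rw [chgL_sup, chgL_sup]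
  exact _root_.sup_le gt (_root_.sup_le gy gR)

variable {u : ℝ} (hu : B.q i + u ≤ 1) (hl : B.lam i + u ≤ 1)

include hu hl in
theorem ptI_le_res : ptI B i u ≤ Mres B i :=
  sup_le_sup (TR.dg_mono _ hu) (sup_le_sup (TR.dg_mono _ hu) (TR.dg_mono _ hl))

include hu hl in
theorem ptI_le_all : chgL (B.V i) e he (ptI B i u) ≤ chgL (B.V i) e he (Mall B) :=
  (chgL_mono _ _ _ (ptI_le_res B i hu hl)).trans (Mres_le_all B i he)

include hu hl in
/-- the deeper digits of the base point: upper bound -/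
theorem pt_h_le {L' : Type*} [PM L'] (f : S.L → L') (fs : ∀ x y, f (x ⊔ y) = f x ⊔ f y)
    (fc : ∀ x y, chgL (B.V i) 1 one_pos x ≤ chgL (B.V i) 1 one_pos y → f x ≤ f y)
    (fd : ∀ (g : TR S) (a b : ℝ), a ≤ b → h (f (TR.dg g b)) (f (TR.dg g a)) ≤ (b - a) / e) :
    h (f (Mall B)) (f (ptI B i u)) ≤ ((1 - (B.q i + u)) + (1 - (B.q i + u)) + (1 - (B.lam i + u))) / e := by
  have fm : ∀ {x y : S.L}, x ≤ y → f x ≤ f y := fun h => fc _ _ (chgL_mono _ _ _ h)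
  have h1 : f (Mall B) ≤ f (Mres B i) := fc _ _ (Mall_le_res B i one_pos)
  refine (h_mono h1).trans ?_
  have e1 : f (Mres B i) = f (TR.dg (B.t - B.tc i) 1) ⊔ (f (TR.dg (B.y - B.yc i) 1) ⊔ f (TR.dg (B.Rr i) 1)) := by
    unfold Mres
    rw [fs, fs]
  rw [e1]
  have a1 := h_sup_le (f (TR.dg (B.t - B.tc i) 1)) (f (TR.dg (B.y - B.yc i) 1) ⊔ f (TR.dg (B.Rr i) 1)) (f (ptI B i u))
  have a2 := h_sup_le (f (TR.dg (B.y - B.yc i) 1)) (f (TR.dg (B.Rr i) 1)) (f (ptI B i u))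
  have b1 : h (f (TR.dg (B.t - B.tc i) 1)) (f (ptI B i u)) ≤ (1 - (B.q i + u)) / e :=
    (h_anti (fm le_sup_left)).trans (fd _ _ _ hu)
  have b2 : h (f (TR.dg (B.y - B.yc i) 1)) (f (ptI B i u)) ≤ (1 - (B.q i + u)) / e :=
    (h_anti (fm (le_sup_left.trans le_sup_right))).trans (fd _ _ _ hu)
  have b3 : h (f (TR.dg (B.Rr i) 1)) (f (ptI B i u)) ≤ (1 - (B.lam i + u)) / e :=
    (h_anti (fm (le_sup_right.trans le_sup_right))).trans (fd _ _ _ hl)
  rw [add_div, add_div]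
  linarith

include hu hl in
/-- the deeper digits of the base point over the label -/
theorem pt_h_chg : h (chgL (B.V i) 1 one_pos (Mall B)) (chgL (B.V i) 1 one_pos (ptI B i u)) ≤
    (1 - (B.q i + u)) + (1 - (B.q i + u)) + (1 - (B.lam i + u)) := by
  have h1 := pt_h_le B i (e := 1) hu hl (chgL (B.V i) 1 one_pos) (chgL_sup _ _ _) (fun _ _ h => h)
    (fun g a b hab => by rw [div_one]; exact chg_h_dg _ g hab)
  rwa [div_one] at h1

include hu hl in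
/-- THE BASE POINT IS FULL IN ITS BOX -/
theorem full_of (hu0 : 0 ≤ u) : 2 * u ≤
    h (chgL (B.V i) 1 one_pos (TR.dg (B.y - B.yc i) (B.q i + u) ⊔ TR.dg (B.Rr i) (B.lam i + u)))
      (chgL (B.V i) 1 one_pos (TR.dg (B.t - B.tc i) (B.q i + u))) := by
  have h1 := Mall_H B i
  have h2 := pt_h_chg B i hu hl
  have h3 := H_chain (chgL (B.V i) 1 one_pos (ptI B i u)) (chgL (B.V i) 1 one_pos (Mall B))
  have h4 : H (chgL (B.V i) 1 one_pos (Mall B)) ≤
      H (chgL (B.V i) 1 one_pos (ptI B i u) ⊔ chgL (B.V i) 1 one_pos (Mall B)) := H_mono le_sup_right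
  have h5 : chgL (B.V i) 1 one_pos (ptI B i u) = chgL (B.V i) 1 one_pos (TR.dg (B.t - B.tc i) (B.q i + u)) ⊔
      chgL (B.V i) 1 one_pos (TR.dg (B.y - B.yc i) (B.q i + u) ⊔ TR.dg (B.Rr i) (B.lam i + u)) := by
    unfold ptI
    rw [chgL_sup]
  have h6 := H_chain (chgL (B.V i) 1 one_pos (TR.dg (B.t - B.tc i) (B.q i + u)))
    (chgL (B.V i) 1 one_pos (TR.dg (B.y - B.yc i) (B.q i + u) ⊔ TR.dg (B.Rr i) (B.lam i + u)))
  rw [← h5] at h6
  have h7 : H (chgL (B.V i) 1 one_pos (TR.dg (B.t - B.tc i) (B.q i + u))) ≤ u := by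
    have g1 := chg_h_dg (B.V i) (B.t - B.tc i) (show B.q i ≤ B.q i + u by linarith)
    rw [tr_dg_bot (B.q1 i) (B.T_mem i) le_rfl, chgL_bot, h_bot] at g1
    linarith
  linarith

end le

/-- the base point of the coarse box is known to the label of the finer window -/
theorem ptI_bot {i0 j : ℕ} {b u : ℝ} (hd : B.Dn i0 b) (hu0 : 0 ≤ u) (h : B.q i0 + u ≤ B.q j) (hb : B.q j ≤ b) {e : ℝ}
    (he : 0 < e) : chgL (B.V j) e he (ptI B i0 u) = ⊥ := by
  have h0 : B.q i0 ≤ B.q j := by linarith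
  have hs := B.slam i0 j h0
  have k0 : ∀ {f : TR S} {r s : ℝ}, r ≤ 1 → QS.mk f ∈ QS.Id S r → s ≤ r → Kd (B.V j) he ⊥ s f := by
    intro f r s hr hf hs
    show chgL (B.V j) e he (TR.dg f s) ≤ ⊥
    rw [tr_dg_bot hr hf hs, chgL_bot]
  have ht : Kd (B.V j) he ⊥ (B.q i0 + u) (B.t - B.tc i0) := t_fine h0 he (k0 (B.q1 j) (B.T_mem j) h)
  have hy : Kd (B.V j) he ⊥ (B.q i0 + u) (B.y - B.yc i0) := y_fine h0 he (k0 (B.q1 j) (B.Y_mem j) h)
  have hR : Kd (B.V j) he ⊥ (B.lam i0 + u) (B.Rr i0) :=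
    R_fine hd h0 hb he (k0 (B.lam1 j) (B.Rr_mem j) (by linarith)) ht hy
  apply le_antisymm _ bot_le
  show chgL (B.V j) e he (TR.dg (B.t - B.tc i0) (B.q i0 + u) ⊔ (TR.dg (B.y - B.yc i0) (B.q i0 + u) ⊔
    TR.dg (B.Rr i0) (B.lam i0 + u))) ≤ _
  rw [chgL_sup, chgL_sup]
  exact _root_.sup_le ht (_root_.sup_le hy hR)

end

end Pool.Agent.Helper47.CA
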